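import Pool.Agent.MP_b9875a_co.H62.EpochA

/-! Row EPOCH: the moves toward the target flow. -/

set_option autoImplicit false

namespace Pool.Agent.MP_b9875a_co.H99.LN

open Finset

namespace EP

variable {V : Type} [DecidableEq V] {k m s : ℕ} {σ : St V} {D H G : Finset (V × V)}
  {acc ac pi po : V → ℕ} {B Bs : Finset (ℕ × ℕ)} {pl : ℕ → ℕ} {a b : V}

/-- the second component of the measure -/
def m2 (σ : St V) (G : Finset (V × V)) (Bs : Finset (ℕ × ℕ)) (a b : V) : ℕ :=
  (σ.H \ G).card + (G \ σ.H).card + (σ.B \ Bs).card + if a = b then 0 else 1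

/-- a move that keeps the target and lowers the measure -/
def Prog (k m s : ℕ) (σ : St V) (G : Finset (V × V)) (Bs : Finset (ℕ × ℕ)) (ac pi po : V → ℕ)
    (pl : ℕ → ℕ) (a b : V) : Prop :=
  ∃ (σ' : St V) (a' b' : V), Good k m s σ' ∧ Tg σ' G Bs ac pi po pl ∧ Sim m σ m σ' ∧ σ'.S = σ.S ∧
    meas σ' = meas σ ∧ σ'.dg = some (a', b') ∧ (σ'.H.card + pi b' < σ.H.card + pi b ∨
      (σ'.H.card + pi b' ≤ σ.H.card + pi b ∧ m2 σ' G Bs a' b' < m2 σ G Bs a b))

theorem cin' (h : Good k m s σ) (hdg : σ.dg = some (a, b)) (v : V) :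
    cnt σ.H σ.hd v + ind b v = cnt σ.B σ.bs v + σ.acc v := by
  have h1 := h.fl.cin v
  rw [h.ar, cnt_empty, hdg] at h1
  exact h1

theorem fl_mv (h : Good k m s σ) (hdg : σ.dg = some (a, b)) {w w' : V} (dj : Disjoint D H)
    (cin : ∀ v, cnt H σ.hd v + ind w' v = cnt σ.B σ.bs v + acc v)
    (cout : ∀ v, acc v + cnt σ.Cn σ.og v = cnt H Prod.fst v) :
    Fl (mv σ D H acc σ.T σ.B σ.Un σ.Cn (some (w, w')) σ.Need) :=
  { h.fl with
    dj := dj
    nb := by
      have h1 := h.fl.nb
      rw [hdg] at h1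
      exact h1
    cin := fun v => by
      have h1 := cin v
      have h2 : cnt σ.Ar σ.og v = 0 := by rw [h.ar, cnt_empty]
      change cnt H σ.hd v + cnt σ.Ar σ.og v + ind w' v = cnt σ.B σ.bs v + acc v
      omega
    cout := cout }

theorem nf (h : Good k m s σ) (ht : Tg σ G Bs ac pi po pl) (hsc : ¬ Sc σ)
    (hdg : σ.dg = some (a, b)) {w' : V} (hw : w' ∈ σ.S) (hU : D ∪ H = σ.D ∪ σ.H)
    (fl : Fl (mv σ D H acc σ.T B σ.Un σ.Cn (some (w', w')) σ.Need)) (a1 : ∀ v, acc v ≤ 100)
    (a2 : ∀ v, acc v ≤ σ.c v) (w : V)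
    (h1 : ∀ v, cnt (σ.T \ B) σ.bs v + ind w' v ≤ cnt (σ.T \ σ.B) σ.bs v + ind w v)
    (h2 : ∀ X, mval (cap σ) Prod.fst σ.hd σ.D X ≤
      mval (fun v => σ.c v - acc v) Prod.fst σ.hd D X + if w ∈ X then 1 else 0)
    (e1 : H.card + pi w' ≤ σ.H.card + pi b)
    (e2 : (H \ G).card + (G \ H).card + (B \ Bs).card < m2 σ G Bs a b) :
    Out k m s σ ∨ Prog k m s σ G Bs ac pi po pl a b := by
  refine (attempt (dm := dem (mv σ D H acc σ.T B σ.Un σ.Cn (some (w', w')) σ.Need)) h hsc hdg w
    h1 h2).imp_right fun adm => ⟨_, w', w', good_mv h hU Subset.rfl Subset.rfl Subset.rfl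
      subset_union_right fl (fun x y e => ?_) a1 a2 h.tok adm, tg_mv ht hU,
      sim_mv hU rfl fun x y e => ?_, rfl, rfl, rfl, Or.inr ⟨e1, ?_⟩⟩
  · cases e
    exact ⟨hw, hw⟩
  · cases e
    exact Or.inl rfl
  · rw [m2, if_pos rfl]
    exact e2

theorem fm (h : Good k m s σ) (hsc : ¬ Sc σ) (hdg : σ.dg = some (a, b)) {p : ℕ} (hp : p ∈ σ.Un)
    (hU : D ∪ H = σ.D ∪ σ.H) (dj : Disjoint D H)
    (cin : ∀ v, cnt H σ.hd v = cnt σ.B σ.bs v + acc v)
    (cout : ∀ v, acc v + (cnt σ.Cn σ.og v + ind (σ.og p) v) = cnt H Prod.fst v)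
    (a1 : ∀ v, acc v ≤ 100) (a2 : ∀ v, acc v ≤ σ.c v) (w : V)
    (h2 : ∀ X, mval (cap σ) Prod.fst σ.hd σ.D X ≤
      mval (fun v => σ.c v - acc v) Prod.fst σ.hd D X + if w ∈ X then 1 else 0) :
    Out k m s σ := by
  have hpC : p ∉ σ.Cn := disjoint_left.1 h.fl.d1 hp
  have c1 := card_erase_add_one hp
  have c2 := card_insert_of_notMem hpC
  have fl : Fl (mv σ D H acc σ.T σ.B (σ.Un.erase p) (insert p σ.Cn) none σ.Need) :=
    { h.fl with
      dj := dj
      d1 := disjoint_insert_right.2 ⟨notMem_erase _ _, h.fl.d1.mono_left (erase_subset _ _)⟩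
      d2 := h.fl.d2.mono_left (erase_subset _ _)
      d3 := disjoint_insert_left.2 ⟨disjoint_left.1 h.fl.d2 hp, h.fl.d3⟩
      nd := by
        have h1 := h.fl.nd
        change σ.Need.card = (σ.Un.erase p).card + (insert p σ.Cn).card + σ.Ar.card
        omega
      nb := by
        have h1 := h.fl.nb
        rw [hdg] at h1
        change σ.B.card = σ.Cn.card + σ.Ar.card + 1 at h1
        change σ.B.card = (insert p σ.Cn).card + σ.Ar.card + 0
        omega
      cin := fun v => by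
        have h1 := cin v
        have h3 : cnt σ.Ar σ.og v = 0 := by rw [h.ar, cnt_empty]
        change cnt H σ.hd v + cnt σ.Ar σ.og v + 0 = cnt σ.B σ.bs v + acc v
        omega
      cout := fun v => by
        change acc v + cnt (insert p σ.Cn) σ.og v = cnt H Prod.fst v
        rw [cnt_insert hpC]
        exact cout v }
  refine (attempt (dm := dem (mv σ D H acc σ.T σ.B (σ.Un.erase p) (insert p σ.Cn) none σ.Need))
    h hsc hdg w (fun v => Nat.add_le_add_left (Nat.zero_le _) _) h2).elim id fun adm =>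
      ⟨_, good_mv h hU Subset.rfl Subset.rfl (erase_subset _ _) (insert_subset
        (mem_union_left _ hp) subset_union_right) fl (fun x y e => by cases e) a1 a2 h.tok adm,
      sim_mv hU ?_ (fun x y e => by cases e), rfl, Or.inl ?_⟩
  · rw [union_insert, ← insert_union, insert_erase hp]
  · change σ.Need.card + (σ.Un.erase p).card < σ.Need.card + σ.Un.card
    omega

theorem finish (h : Good k m s σ) (hdg : σ.dg = some (b, b)) {p : ℕ} (hp : p ∈ σ.Un)
    (hpb : σ.og p = b) {τ : ℕ × ℕ} (hτ : τ ∈ σ.B) (hτb : σ.bs τ = b) : Out k m s σ := by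
  have hT := h.fl.BT hτ
  have hN := h.fl.lab τ hτ
  have c1 := card_erase_add_one hp
  have c2 := card_erase_add_one hτ
  have c3 := card_erase_add_one hN
  have fl : Fl (mv σ σ.D σ.H σ.acc (σ.T.erase τ) (σ.B.erase τ) (σ.Un.erase p) σ.Cn none
      (σ.Need.erase τ.1)) :=
    { h.fl with
      BT := erase_subset_erase _ h.fl.BT
      lab := fun τ' h' => mem_erase.2 ⟨fun e => (mem_erase.1 h').1
        (h.fl.inj τ' (mem_erase.1 h').2 τ hτ e), h.fl.lab τ' (mem_erase.1 h').2⟩
      inj := fun τ₁ h₁ τ₂ h₂ => h.fl.inj τ₁ (mem_erase.1 h₁).2 τ₂ (mem_erase.1 h₂).2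
      d1 := h.fl.d1.mono_left (erase_subset _ _)
      d2 := h.fl.d2.mono_left (erase_subset _ _)
      nd := by
        have h1 := h.fl.nd
        change (σ.Need.erase τ.1).card = (σ.Un.erase p).card + σ.Cn.card + σ.Ar.card
        omega
      nb := by
        have h1 := h.fl.nb
        rw [hdg] at h1
        change σ.B.card = σ.Cn.card + σ.Ar.card + 1 at h1
        change (σ.B.erase τ).card = σ.Cn.card + σ.Ar.card + 0
        omega
      cin := fun v => by
        have h1 := cin' h hdg v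
        have h2 := cnt_erase hτ σ.bs v
        have h3 : cnt σ.Ar σ.og v = 0 := by rw [h.ar, cnt_empty]
        rw [hτb] at h2
        change cnt σ.H σ.hd v + cnt σ.Ar σ.og v + 0 = cnt (σ.B.erase τ) σ.bs v + σ.acc v
        omega }
  have hf : σ.T.erase τ \ σ.B.erase τ = σ.T \ σ.B := by
    ext x
    simp only [mem_sdiff, mem_erase]
    grind
  refine ⟨_, good_mv h rfl (erase_subset _ _) (erase_subset _ _) (erase_subset _ _)
    subset_union_right fl (fun x y e => by cases e) h.acc1 h.acc2 (fun i hi => ?_)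
    fun X hX hc => le_trans (sum_le_sum fun v _ => ?_) (h.adm X hX hc), ?_, rfl, Or.inl ?_⟩
  · have h1 := h.tok i hi
    have h2 := cnt_erase hT Prod.fst i
    by_cases e : τ.1 = i
    · subst e
      rw [if_pos hN] at h1
      rw [ind_self] at h2
      rw [if_neg (notMem_erase _ _)]
      omega
    · rw [ind_ne e] at h2
      simp only [mem_erase, ne_eq, Ne.symm e, not_false_eq_true, true_and]
      omega
  · change cnt (σ.T.erase τ \ σ.B.erase τ) σ.bs v + 0 ≤ cnt (σ.T \ σ.B) σ.bs v + _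
    rw [hf]
    exact Nat.add_le_add_left (Nat.zero_le _) _
  · classical
    refine sim_rel (fun o => if o = Ob.peb p ∨ o = Ob.tok τ then Ob.done (m - 1) τ.1 else o)
      fun o x y hr => ?_
    cases o with
    | arc e => exact .single ⟨Ob.arc e, hr, by simp⟩
    | tok τ' =>
      have h1 := mem_erase.1 hr.1
      exact .single ⟨Ob.tok τ', ⟨h1.2, hr.2⟩, by simp [h1.1]⟩
    | peb q =>
      have h1 : q ≠ p := by
        rintro rfl
        rcases hr.1 with h1 | h1 | h1
        · exact notMem_erase _ _ h1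
        · exact disjoint_left.1 h.fl.d1 hp h1
        · exact disjoint_left.1 h.fl.d2 hp h1
      exact .single ⟨Ob.peb q, ⟨hr.1.imp_left mem_of_mem_erase, hr.2⟩, by simp [h1]⟩
    | dang => cases hr
    | done j i =>
      obtain ⟨h1, h2, h3, rfl, rfl⟩ := hr
      by_cases h4 : j + 1 < m ∨ i ∉ σ.Need
      · exact .single ⟨Ob.done j i, ⟨h1, h2, h4, rfl, rfl⟩, by simp⟩
      · rw [not_or, not_not] at h4
        have h5 : i = τ.1 := by
          by_contra e
          exact (h3.resolve_left h4.1) (mem_erase.2 ⟨e, h4.2⟩)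
        have h6 : j = m - 1 := by omega
        subst h5 h6
        exact .tail (b := b) (.single ⟨Ob.peb p, ⟨Or.inl hp, rfl, hpb.symm⟩, by simp⟩)
          ⟨Ob.tok τ, ⟨hT, hτb.symm, rfl⟩, by simp⟩
  · change (σ.Need.erase τ.1).card + (σ.Un.erase p).card < σ.Need.card + σ.Un.card
    omega

theorem short (h : Good k m s σ) (ht : Tg σ G Bs ac pi po pl) (hsc : Sc σ)
    (hdg : σ.dg = some (a, b)) : Prog k m s σ G Bs ac pi po pl a b := by
  obtain ⟨f, hf, Q, hQ, hc, h1, hb, hl⟩ := hsc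
  change ∀ v, cnt Q Prod.fst v + ind (σ.hd f) v = cnt Q σ.hd v + ind f.1 v at hb
  change ∀ v, cnt Q Prod.fst v ≤ σ.acc v + ind f.1 v at hl
  have dj := disjoint_left.1 h.fl.dj
  have hfH : f ∉ σ.H \ Q := fun e => dj hf (mem_sdiff.1 e).1
  have hU : σ.D.erase f ∪ Q ∪ insert f (σ.H \ Q) = σ.D ∪ σ.H := by
    ext x
    have := @hQ x
    simp only [mem_union, mem_erase, mem_insert, mem_sdiff]
    grind
  have hle : ∀ v, σ.acc v + ind f.1 v - cnt Q Prod.fst v ≤ σ.acc v := fun v => by
    have := ind_le h1 v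
    omega
  have fl := fl_mv (D := σ.D.erase f ∪ Q) (H := insert f (σ.H \ Q))
    (acc := fun v => σ.acc v + ind f.1 v - cnt Q Prod.fst v) (w := a) (w' := b) h hdg
    (disjoint_left.2 fun x h2 h3 => by
      have := @hQ x
      have := @dj x
      have := @dj f
      simp only [mem_union, mem_erase, mem_insert, mem_sdiff] at h2 h3
      grind)
    (fun v => by
      have h2 := cin' h hdg v
      have h3 := cnt_sdiff hQ σ.hd v
      have h4 := hb v
      have h5 := hl v
      rw [cnt_insert hfH]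
      omega)
    (fun v => by
      have h2 := h.fl.cout v
      have h3 := cnt_sdiff hQ Prod.fst v
      have h5 := hl v
      rw [cnt_insert hfH]
      omega)
  refine ⟨_, a, b, good_mv h hU Subset.rfl Subset.rfl Subset.rfl subset_union_right fl
    (fun x y e => h.dgS x y (hdg.trans e)) (fun v => (hle v).trans (h.acc1 v))
    (fun v => (hle v).trans (h.acc2 v)) h.tok fun X hX hcX => ?_, tg_mv ht hU,
    sim_mv hU rfl fun x y e => Or.inr (hdg.trans e), rfl, rfl, rfl, Or.inl ?_⟩
  · have h2 := h.adm X hX hcX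
    refine le_trans (le_of_eq (sum_congr rfl fun v _ => ?_)) (h2.trans ?_)
    · rw [dem, dem, hdg]
    change mval (cap σ) Prod.fst σ.hd σ.D X ≤
      mval (fun v => σ.c v - (σ.acc v + ind f.1 v - cnt Q Prod.fst v)) Prod.fst σ.hd
        (σ.D.erase f ∪ Q) X
    have hcap : ∀ v, cap σ v ≤ σ.c v - (σ.acc v + ind f.1 v - cnt Q Prod.fst v) := fun v =>
      Nat.sub_le_sub_left (hle v) _
    by_cases e : f.1 ∈ X ∧ σ.hd f ∉ X
    · obtain ⟨q, hq, hq1, hq2⟩ := leave hb e.1 e.2
      have hqD : q ∉ σ.D.erase f := fun e' => dj (mem_of_mem_erase e') (hQ hq)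
      have h3 := mval_tr (c := cap σ) (tl := Prod.fst) (hd := σ.hd) (D := σ.D)
        (c' := fun v => σ.c v - (σ.acc v + ind f.1 v - cnt Q Prod.fst v))
        (D' := σ.D.erase f ∪ Q) (X := X) q.1 f.1 fun v _ => by
          have h4 := ex_erase Prod.fst σ.hd hf v X
          have h5 := ex_insert Prod.fst σ.hd hqD v X
          have h6 := ex_mono Prod.fst σ.hd (insert_subset (mem_union_right _ hq)
            subset_union_left : insert q (σ.D.erase f) ⊆ σ.D.erase f ∪ Q) v X
          rw [if_neg e.2] at h4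
          rw [if_neg hq2] at h5
          have h7 : ind q.1 v ≤ cnt Q Prod.fst v :=
            ind_le (f := cnt Q Prod.fst) (card_pos.2 ⟨q, mem_filter.2 ⟨hq, rfl⟩⟩) v
          have h8 := hl v
          have h9 := h.acc2 v
          unfold cap
          omega
      rw [if_pos hq1, if_pos e.1] at h3
      omega
    · refine mval_mono fun v hv => ⟨hcap v, le_trans (le_of_eq ?_)
        (ex_mono Prod.fst σ.hd subset_union_left v X)⟩
      rw [ex_erase Prod.fst σ.hd hf]
      split_ifs with e'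
      · rfl
      · rw [ind_ne fun e'' : f.1 = v => e ⟨e'' ▸ hv, e'⟩, add_zero]
  · change (insert f (σ.H \ Q)).card + pi b < σ.H.card + pi b
    have := card_sdiff_add_card_eq_card hQ
    rw [card_insert_of_notMem hfH]
    omega

theorem lt_erase {α : Type} [DecidableEq α] {A C : Finset α} {x : α} (h : x ∈ A) (h' : x ∉ C) :
    (A.erase x \ C).card + 1 = (A \ C).card ∧ C \ A.erase x = C \ A := by
  refine ⟨?_, ?_⟩
  · rw [← card_erase_add_one (mem_sdiff.2 ⟨h, h'⟩), erase_sdiff_comm]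
  · ext y
    simp only [mem_sdiff, mem_erase]
    grind

theorem lt_insert {α : Type} [DecidableEq α] {A C : Finset α} {x : α} (h : x ∉ A) (h' : x ∈ C) :
    (C \ insert x A).card + 1 = (C \ A).card ∧ insert x A \ C = A \ C :=
  ⟨by rw [sdiff_insert, card_erase_add_one (mem_sdiff.2 ⟨h', h⟩)], insert_sdiff_of_mem _ h'⟩

theorem moveR2 (h : Good k m s σ) (ht : Tg σ G Bs ac pi po pl) (hsc : ¬ Sc σ)
    (hdg : σ.dg = some (b, b)) {τ' : ℕ × ℕ} (h1 : τ' ∈ σ.B) (h2 : τ' ∉ Bs) (h3 : σ.bs τ' = b) :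
    Out k m s σ ∨ Prog k m s σ G Bs ac pi po pl b b := by
  have hN := h.fl.lab τ' h1
  obtain ⟨τ, h4, h5⟩ := ht.lab _ hN
  have h6 : τ ∉ σ.B := fun e => h2 (h.fl.inj τ e τ' h1 h5 ▸ h4)
  have h7 : τ ∉ σ.B.erase τ' := fun e => h6 (mem_of_mem_erase e)
  have hT := ht.BsT h4
  have hB : insert τ (σ.B.erase τ') ⊆ σ.T :=
    insert_subset hT ((erase_subset _ _).trans h.fl.BT)
  have hc : ∀ v, cnt (insert τ (σ.B.erase τ')) σ.bs v + ind b v =
      cnt σ.B σ.bs v + ind (σ.bs τ) v := fun v => by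
    have := cnt_erase h1 σ.bs v
    rw [h3] at this
    rw [cnt_insert h7]
    omega
  refine nf (B := insert τ (σ.B.erase τ')) h ht hsc hdg (h.bsS τ hT) rfl
    { h.fl with
      BT := hB
      lab := fun x hx => ?_
      inj := fun x hx y hy e => ?_
      nb := ?_
      cin := fun v => ?_ } h.acc1 h.acc2 b (fun v => ?_) (fun X => Nat.le_add_right _ _) ?_ ?_
  · rcases mem_insert.1 hx with rfl | hx
    · exact h5 ▸ hN
    · exact h.fl.lab x (mem_of_mem_erase hx)
  · have i1 := h.fl.inj x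
    have i2 := h.fl.inj y
    simp only [mem_insert, mem_erase] at hx hy
    grind
  · have h8 := h.fl.nb
    rw [hdg] at h8
    change (insert τ (σ.B.erase τ')).card = _
    rw [card_insert_of_notMem h7, card_erase_add_one h1]
    exact h8
  · have h8 := cin' h hdg v
    have h9 := hc v
    have h10 : cnt σ.Ar σ.og v = 0 := by rw [h.ar, cnt_empty]
    change cnt σ.H σ.hd v + cnt σ.Ar σ.og v + ind (σ.bs τ) v =
      cnt (insert τ (σ.B.erase τ')) σ.bs v + σ.acc v
    omega
  · have h8 := cnt_sdiff hB σ.bs v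
    have h9 := cnt_sdiff h.fl.BT σ.bs v
    have h10 := hc v
    omega
  · have h8 := ht.p5 τ h4
    have h9 := ht.p6 τ' (h.fl.BT h1) h2 hN
    rw [h5] at h8
    rw [h3] at h9
    omega
  · have h8 := (lt_erase h1 h2).1
    rw [(lt_insert h7 h4).2, m2]
    omega

theorem moveR1 (h : Good k m s σ) (ht : Tg σ G Bs ac pi po pl) (hsc : ¬ Sc σ)
    (hdg : σ.dg = some (b, b)) (h0 : cnt σ.Un σ.og b = 0) (h1 : ac b < σ.acc b) :
    Out k m s σ ∨ Prog k m s σ G Bs ac pi po pl b b := by
  obtain ⟨g, g1, g2, g3⟩ := exists_of_lt (A := G) (B := σ.H) (f := Prod.fst) (v := b) (by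
    have := h.fl.cout b
    have := ht.tout b
    omega)
  have dj := disjoint_left.1 h.fl.dj
  have hi := ind_le (f := σ.acc) (x := b) (by omega)
  have e := lt_erase g1 g2
  refine nf (D := insert g σ.D) (H := σ.H.erase g) (acc := fun v => σ.acc v - ind b v) h ht hsc hdg
    (h.arcH g g1).2 (by rw [insert_union_comm, insert_erase g1])
    (fl_mv h hdg (disjoint_insert_left.2 ⟨notMem_erase _ _,
      h.fl.dj.mono_right (erase_subset _ _)⟩) (fun v => ?_) fun v => ?_)
    (fun v => (Nat.sub_le _ _).trans (h.acc1 v)) (fun v => (Nat.sub_le _ _).trans (h.acc2 v))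
    (σ.hd g) (fun v => le_rfl) (fun X => le_trans (mval_mono fun v _ =>
      ⟨Nat.sub_le_sub_left (Nat.sub_le _ _) _, ex_mono _ _ (subset_insert _ _) v X⟩)
      (Nat.le_add_right _ _)) ?_ ?_
  · have := cin' h hdg v
    have := cnt_erase g1 σ.hd v
    have := hi v
    omega
  · have := h.fl.cout v
    have h2 := cnt_erase g1 Prod.fst v
    have := hi v
    rw [g3] at h2
    omega
  · have h2 := ht.p2 g (mem_union_right _ g1) g2
    have h3 := ht.p4 b (h1.trans_le (h.acc1 b)) (h1.trans_le (h.acc2 b))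
    have h4 := card_erase_add_one g1
    rw [g3] at h2
    omega
  · rw [e.2, m2]
    omega

theorem moveG (h : Good k m s σ) (ht : Tg σ G Bs ac pi po pl) (hsc : ¬ Sc σ)
    (hdg : σ.dg = some (b, b)) {f : V × V} (f1 : f ∈ G) (f2 : f ∉ σ.H) (f3 : σ.hd f = b) :
    Out k m s σ ∨ Prog k m s σ G Bs ac pi po pl b b := by
  have fD : f ∈ σ.D := (mem_union.1 (ht.Gs f1)).resolve_right f2
  have dj := disjoint_left.1 h.fl.dj
  have hU : σ.D.erase f ∪ insert f σ.H = σ.D ∪ σ.H := by
    rw [union_insert, ← insert_union, insert_erase fD]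
  have dj' : Disjoint (σ.D.erase f) (insert f σ.H) :=
    disjoint_insert_right.2 ⟨notMem_erase _ _, h.fl.dj.mono_left (erase_subset _ _)⟩
  have p1 := ht.p1 f f1
  rw [f3] at p1
  by_cases hp : ∃ p ∈ σ.Un, σ.og p = f.1
  · obtain ⟨p, hp, hpy⟩ := hp
    refine Or.inl (fm h hsc hdg hp hU dj' (fun v => ?_) (fun v => ?_) h.acc1 h.acc2 f.1
      fun X => mval_loss _ fun v _ => ?_)
    · rw [cnt_insert f2, f3]
      exact cin' h hdg v
    · rw [cnt_insert f2, hpy, ← h.fl.cout v, add_assoc]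
    · have := ex_erase_le Prod.fst σ.hd fD v X
      unfold cap
      omega
  have h0 := cnt_zero hp
  by_cases hlt : σ.acc f.1 < ac f.1
  · have hle : ∀ v, σ.acc v + ind f.1 v ≤ max (σ.acc v) (ac v) := fun v => by
      by_cases e : f.1 = v
      · subst e
        rw [ind_self]
        omega
      · rw [ind_ne e]
        omega
    have e := lt_insert f2 f1
    refine nf (acc := fun v => σ.acc v + ind f.1 v) h ht hsc hdg (h.arcD f fD).1 hU
      (fl_mv h hdg dj' (fun v => ?_) fun v => ?_)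
      (fun v => (hle v).trans (max_le (h.acc1 v) (ht.ac1 v)))
      (fun v => (hle v).trans (max_le (h.acc2 v) (ht.ac2 v))) f.1 (fun v => le_rfl)
      (fun X => mval_loss _ fun v _ => ?_) ?_ ?_
    · rw [cnt_insert f2, f3, cin' h hdg v, add_assoc]
    · rw [cnt_insert f2, ← h.fl.cout v, add_right_comm]
    · have := ex_erase_le Prod.fst σ.hd fD v X
      unfold cap
      omega
    · have := ht.p3 f.1 (by omega)
      rw [card_insert_of_notMem f2]
      omega
    · rw [e.2, m2]
      omega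
  · obtain ⟨g, g1, g2, g3⟩ := exists_of_lt (A := G.erase f) (B := σ.H) (f := Prod.fst)
      (v := f.1) (by
        have := h.fl.cout f.1
        have := ht.tout f.1
        have h2 := cnt_erase f1 Prod.fst f.1
        rw [ind_self] at h2
        omega)
    have gG : g ∉ G := fun e => g2 (mem_erase.2 ⟨fun e' => f2 (e' ▸ g1), e⟩)
    have f4 : f ∉ σ.H.erase g := fun e => f2 (mem_of_mem_erase e)
    have g4 : g ∉ σ.D.erase f := fun e => dj (mem_of_mem_erase e) g1
    have e := lt_insert f4 f1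
    have e' := lt_erase g1 gG
    refine nf (D := insert g (σ.D.erase f)) (H := insert f (σ.H.erase g)) h ht hsc hdg
      (h.arcH g g1).2 ?_ (fl_mv h hdg (disjoint_left.2 fun x h2 h3 => ?_) (fun v => ?_) fun v => ?_)
      h.acc1 h.acc2 (σ.hd g) (fun v => le_rfl) (fun X => ?_) ?_ ?_
    · ext x
      simp only [mem_union, mem_erase, mem_insert]
      grind
    · have := @dj x
      simp only [mem_erase, mem_insert] at h2 h3
      grind
    · have := cin' h hdg v
      have := cnt_erase g1 σ.hd v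
      rw [cnt_insert f4, f3]
      omega
    · have := h.fl.cout v
      have h2 := cnt_erase g1 Prod.fst v
      rw [g3] at h2
      rw [cnt_insert f4]
      omega
    · split_ifs with e''
      · refine (mval_loss f.1 fun v _ => ?_).trans (Nat.add_le_add_left (by split_ifs <;> omega) _)
        have := ex_erase_le Prod.fst σ.hd fD v X
        have := ex_mono Prod.fst σ.hd (subset_insert g (σ.D.erase f)) v X
        unfold cap
        omega
      · refine mval_mono fun v _ => ⟨le_rfl, ?_⟩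
        rw [ex_insert _ _ g4, if_neg e'', g3]
        exact ex_erase_le Prod.fst σ.hd fD v X
    · have h2 := ht.p2 g (mem_union_right _ g1) gG
      rw [g3] at h2
      rw [card_insert_of_notMem f4, card_erase_add_one g1]
      omega
    · have h2 := e.1
      rw [e'.2] at h2
      rw [e.2, m2]
      omega

theorem step (h : Good k m s σ) (ht : Tg σ G Bs ac pi po pl) (hdg : σ.dg = some (a, b)) :
    Out k m s σ ∨ Prog k m s σ G Bs ac pi po pl a b := by
  by_cases hsc : Sc σ
  · exact Or.inr (short h ht hsc hdg)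
  by_cases hab : a = b
  swap
  · refine nf h ht hsc hdg (h.dgS a b hdg).2 rfl (fl_mv h hdg h.fl.dj (cin' h hdg) h.fl.cout)
      h.acc1 h.acc2 b (fun v => le_rfl) (fun X => Nat.le_add_right _ _) le_rfl ?_
    rw [m2, if_neg hab]
    omega
  subst hab
  have hc := cin' h hdg a
  rw [ind_self] at hc
  by_cases hp : ∃ p ∈ σ.Un, σ.og p = a
  · obtain ⟨p, hp, hpa⟩ := hp
    left
    by_cases h1 : 1 ≤ σ.acc a
    · have hi := ind_le h1
      refine fm (acc := fun v => σ.acc v - ind a v) h hsc hdg hp rfl h.fl.dj (fun v => ?_)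
        (fun v => ?_) (fun v => (Nat.sub_le _ _).trans (h.acc1 v))
        (fun v => (Nat.sub_le _ _).trans (h.acc2 v)) a fun X => le_trans (mval_mono fun v _ =>
          ⟨Nat.sub_le_sub_left (Nat.sub_le _ _) _, le_rfl⟩) (Nat.le_add_right _ _)
      · have := cin' h hdg v
        have := hi v
        omega
      · have := h.fl.cout v
        have := hi v
        rw [hpa]
        omega
    · obtain ⟨τ, h2, h3⟩ := cnt_pos (A := σ.B) (f := σ.bs) (v := a) (by omega)
      exact finish h hdg hp hpa h2 h3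
  by_cases h1 : cnt Bs σ.bs a < cnt σ.B σ.bs a
  · obtain ⟨τ, h2, h3, h4⟩ := exists_of_lt h1
    exact moveR2 h ht hsc hdg h2 h3 h4
  by_cases h2 : ac a < σ.acc a
  · exact moveR1 h ht hsc hdg (cnt_zero hp) h2
  obtain ⟨f, f1, f2, f3⟩ := exists_of_lt (A := σ.H) (B := G) (f := σ.hd) (v := a) (by
    have := ht.tin a
    omega)
  exact moveG h ht hsc hdg f1 f2 f3

theorem Out.back {σ' : St V} (h : Out k m s σ') (h1 : Sim m σ m σ') (h2 : σ'.S = σ.S)
    (h3 : meas σ' = meas σ) : Out k m s σ := by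
  obtain ⟨σ'', a1, a2, a3, a4⟩ := h
  exact ⟨σ'', a1, sim_trans h1 a2, a3.trans h2, h3 ▸ a4⟩

theorem run (n₁ : ℕ) : ∀ (n₂ : ℕ) (σ : St V) (a b : V), Good k m s σ → Tg σ G Bs ac pi po pl →
    σ.dg = some (a, b) → σ.H.card + pi b ≤ n₁ → m2 σ G Bs a b ≤ n₂ → Out k m s σ := by
  induction n₁ using Nat.strong_induction_on with
  | _ n₁ ih₁ =>
    intro n₂
    induction n₂ using Nat.strong_induction_on with
    | _ n₂ ih₂ =>
      intro σ a b h ht hdg e1 e2
      rcases step h ht hdg with o | ⟨σ', a', b', c1, c2, c3, c4, c5, c6, c7 | c7⟩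
      · exact o
      · exact (ih₁ _ (c7.trans_le e1) _ σ' a' b' c1 c2 c6 le_rfl le_rfl).back c3 c4 c5
      · exact (ih₂ _ (c7.2.trans_le e2) σ' a' b' c1 c2 c6 (c7.1.trans e1) le_rfl).back c3 c4 c5

theorem start (h : Good k m s σ) (ht : Tg σ G Bs ac pi po pl) (hU : σ.Un.Nonempty)
    (hdg : σ.dg = none) : Out k m s σ := by
  have h1 := h.fl.nd
  have h2 := h.fl.nb
  have h3 := card_pos.2 hU
  rw [hdg] at h2
  change σ.B.card = σ.Cn.card + σ.Ar.card + 0 at h2
  obtain ⟨i, i1, i2⟩ := exists_mem_notMem_of_card_lt_card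
    (s := σ.B.image Prod.fst) (t := σ.Need) (card_image_le.trans_lt (by omega))
  obtain ⟨τ, h4, rfl⟩ := ht.lab i i1
  have h5 : ∀ x ∈ σ.B, x.1 ≠ τ.1 := fun x hx e => i2 (e ▸ mem_image_of_mem _ hx)
  have h6 : τ ∉ σ.B := fun e => h5 τ e rfl
  have hT := ht.BsT h4
  have hB : insert τ σ.B ⊆ σ.T := insert_subset hT h.fl.BT
  have fl : Fl (mv σ σ.D σ.H σ.acc σ.T (insert τ σ.B) σ.Un σ.Cn (some (σ.bs τ, σ.bs τ)) σ.Need) :=
    { h.fl with
      BT := hB
      lab := fun x hx => (mem_insert.1 hx).elim (fun e => e ▸ i1) (h.fl.lab x)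
      inj := fun x hx y hy e => by
        have j1 := h.fl.inj x
        have j2 := h5 x
        have j3 := h5 y
        simp only [mem_insert] at hx hy
        grind
      nb := by
        change (insert τ σ.B).card = σ.Cn.card + σ.Ar.card + 1
        rw [card_insert_of_notMem h6, h2]
      cin := fun v => by
        have h7 := h.fl.cin v
        rw [hdg] at h7
        change cnt σ.H σ.hd v + cnt σ.Ar σ.og v + 0 = _ at h7
        change cnt σ.H σ.hd v + cnt σ.Ar σ.og v + ind (σ.bs τ) v =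
          cnt (insert τ σ.B) σ.bs v + σ.acc v
        rw [cnt_insert h6]
        omega }
  refine (run _ _ _ (σ.bs τ) (σ.bs τ) (good_mv h rfl Subset.rfl Subset.rfl Subset.rfl
    subset_union_right fl (fun x y e => ?_) h.acc1 h.acc2 h.tok fun X hX hc =>
      le_trans (sum_le_sum fun v _ => ?_) (h.adm X hX hc)) (tg_mv ht rfl) rfl le_rfl le_rfl).back
    (sim_mv rfl rfl fun x y e => ?_) rfl rfl
  · cases e
    exact ⟨h.bsS τ hT, h.bsS τ hT⟩
  · have h7 := cnt_sdiff hB σ.bs v
    have h8 := cnt_sdiff h.fl.BT σ.bs v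
    rw [cnt_insert h6] at h7
    change cnt (σ.T \ insert τ σ.B) σ.bs v + ind (σ.bs τ) v ≤ cnt (σ.T \ σ.B) σ.bs v + _
    omega
  · cases e
    exact Or.inl rfl

end EP

theorem epoch : EpochStmt := by
  intro V _ _ k m s σ G Bs ac pi po pl h hU ht
  rcases hdg : σ.dg with _ | ⟨a, b⟩
  · exact EP.start h ht hU hdg
  · exact EP.run _ _ σ a b h ht hdg le_rfl le_rfl

end Pool.Agent.MP_b9875a_co.H99.LN
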