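import Pool.Agent.MP_b9875a_co.H99.Spec2

/-! Row EPOCH, first part: counting lemmas and the general shape of a move. -/

set_option autoImplicit false

namespace Pool.Agent.MP_b9875a_co.H99.LN.EP

open Finset

section basic

variable {V α : Type} [DecidableEq V]

/-- indicator -/
def ind (x v : V) : ℕ := if x = v then 1 else 0

theorem ind_le {f : V → ℕ} {x : V} (h : 1 ≤ f x) (v : V) : ind x v ≤ f v := by
  unfold ind
  split_ifs with e
  · exact e ▸ h
  · exact Nat.zero_le _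

theorem ind_self (x : V) : ind x x = 1 := if_pos rfl

theorem ind_ne {x v : V} (h : x ≠ v) : ind x v = 0 := if_neg h

theorem sum_ind (x : V) (X : Finset V) : ∑ v ∈ X, ind x v = if x ∈ X then 1 else 0 :=
  sum_ite_eq X x fun _ => 1

theorem cnt_mono {A B : Finset α} (h : A ⊆ B) (f : α → V) (v : V) : cnt A f v ≤ cnt B f v :=
  card_le_card (filter_subset_filter _ h)

theorem cnt_pos {A : Finset α} {f : α → V} {v : V} (h : 1 ≤ cnt A f v) : ∃ a ∈ A, f a = v := by
  obtain ⟨a, ha⟩ := card_pos.1 h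
  exact ⟨a, mem_filter.1 ha⟩

theorem cnt_zero {A : Finset α} {f : α → V} {v : V} (h : ¬ ∃ a ∈ A, f a = v) : cnt A f v = 0 := by
  by_contra h0
  exact h (cnt_pos (Nat.one_le_iff_ne_zero.2 h0))

theorem cnt_empty (f : α → V) (v : V) : cnt (∅ : Finset α) f v = 0 := rfl

theorem exists_of_lt {A B : Finset α} {f : α → V} {v : V} (h : cnt A f v < cnt B f v) :
    ∃ a ∈ B, a ∉ A ∧ f a = v := by
  by_contra hn
  push Not at hn
  refine absurd h (not_lt.2 (card_le_card fun a ha => ?_))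
  rw [mem_filter] at ha ⊢
  exact ⟨by_contra fun h' => hn a ha.1 h' ha.2, ha.2⟩

theorem ex_mono (tl hd : α → V) {A B : Finset α} (h : A ⊆ B) (v : V) (X : Finset V) :
    ex tl hd A v X ≤ ex tl hd B v X := card_le_card (filter_subset_filter _ h)

theorem mval_tr {c c' : V → ℕ} {tl hd : α → V} {D D' : Finset α} {X : Finset V} (w y : V)
    (h : ∀ v ∈ X, min (c v) (ex tl hd D v X) + ind w v ≤ min (c' v) (ex tl hd D' v X) + ind y v) :
    mval c tl hd D X + (if w ∈ X then 1 else 0) ≤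
      mval c' tl hd D' X + (if y ∈ X then 1 else 0) := by
  rw [← sum_ind, ← sum_ind, mval, mval, ← sum_add_distrib, ← sum_add_distrib]
  exact sum_le_sum h

theorem mval_loss {c c' : V → ℕ} {tl hd : α → V} {D D' : Finset α} {X : Finset V} (y : V)
    (h : ∀ v ∈ X, min (c v) (ex tl hd D v X) ≤ min (c' v) (ex tl hd D' v X) + ind y v) :
    mval c tl hd D X ≤ mval c' tl hd D' X + (if y ∈ X then 1 else 0) := by
  rw [← sum_ind, mval, mval, ← sum_add_distrib]
  exact sum_le_sum h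

theorem mval_mono {c c' : V → ℕ} {tl hd : α → V} {D D' : Finset α} {X : Finset V}
    (h : ∀ v ∈ X, c v ≤ c' v ∧ ex tl hd D v X ≤ ex tl hd D' v X) :
    mval c tl hd D X ≤ mval c' tl hd D' X :=
  sum_le_sum fun v hv => min_le_min (h v hv).1 (h v hv).2

theorem sum_cnt (Q : Finset α) (f : α → V) (X : Finset V) :
    ∑ v ∈ X, cnt Q f v = (Q.filter fun a => f a ∈ X).card := by
  rw [card_eq_sum_card_fiberwise (f := f) (s := Q.filter fun a => f a ∈ X) (t := X)
    fun a ha => (mem_filter.1 (mem_coe.1 ha)).2]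
  refine sum_congr rfl fun v hv => ?_
  rw [cnt, filter_filter]
  congr 1
  exact filter_congr fun a _ => ⟨fun h => ⟨h ▸ hv, h⟩, fun h => h.2⟩

theorem leave {Q : Finset α} {tl hd : α → V} {x y : V} {X : Finset V}
    (h : ∀ v, cnt Q tl v + ind y v = cnt Q hd v + ind x v) (hx : x ∈ X) (hy : y ∉ X) :
    ∃ q ∈ Q, tl q ∈ X ∧ hd q ∉ X := by
  have h1 : ∑ v ∈ X, (cnt Q tl v + ind y v) = ∑ v ∈ X, (cnt Q hd v + ind x v) :=
    sum_congr rfl fun v _ => h v
  rw [sum_add_distrib, sum_add_distrib, sum_ind, sum_ind, if_pos hx, if_neg hy, sum_cnt,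
    sum_cnt] at h1
  by_contra hn
  push Not at hn
  have : (Q.filter fun a => tl a ∈ X) ⊆ Q.filter fun a => hd a ∈ X := fun a ha => by
    rw [mem_filter] at ha ⊢
    exact ⟨ha.1, hn a ha.1 ha.2⟩
  have := card_le_card this
  omega

variable [DecidableEq α]

theorem cnt_insert {A : Finset α} {a : α} (h : a ∉ A) (f : α → V) (v : V) :
    cnt (insert a A) f v = cnt A f v + ind (f a) v := by
  unfold cnt ind
  rw [filter_insert]
  split_ifs with e
  · rw [card_insert_of_notMem fun h' => h (mem_filter.1 h').1]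
  · rfl

theorem cnt_erase {A : Finset α} {a : α} (h : a ∈ A) (f : α → V) (v : V) :
    cnt (A.erase a) f v + ind (f a) v = cnt A f v := by
  rw [← cnt_insert (notMem_erase a A), insert_erase h]

theorem cnt_union {A B : Finset α} (h : Disjoint A B) (f : α → V) (v : V) :
    cnt (A ∪ B) f v = cnt A f v + cnt B f v := by
  unfold cnt
  rw [filter_union, card_union_of_disjoint (disjoint_filter_filter h)]

theorem cnt_sdiff {A B : Finset α} (h : B ⊆ A) (f : α → V) (v : V) :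
    cnt (A \ B) f v + cnt B f v = cnt A f v := by
  rw [← cnt_union sdiff_disjoint, sdiff_union_of_subset h]

theorem ex_insert (tl hd : α → V) {A : Finset α} {a : α} (h : a ∉ A) (v : V) (X : Finset V) :
    ex tl hd (insert a A) v X = ex tl hd A v X + if hd a ∈ X then 0 else ind (tl a) v := by
  unfold ex ind
  rw [filter_insert]
  by_cases e1 : hd a ∈ X
  · simp [e1]
  · by_cases e2 : tl a = v
    · rw [if_pos ⟨e2, e1⟩, if_neg e1, if_pos e2,
        card_insert_of_notMem fun h' => h (mem_filter.1 h').1]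
    · simp [e1, e2]

theorem ex_erase (tl hd : α → V) {A : Finset α} {a : α} (h : a ∈ A) (v : V) (X : Finset V) :
    ex tl hd A v X = ex tl hd (A.erase a) v X + if hd a ∈ X then 0 else ind (tl a) v := by
  rw [← ex_insert tl hd (notMem_erase a A), insert_erase h]

theorem ex_erase_le (tl hd : α → V) {A : Finset α} {a : α} (h : a ∈ A) (v : V) (X : Finset V) :
    ex tl hd A v X ≤ ex tl hd (A.erase a) v X + ind (tl a) v := by
  rw [ex_erase tl hd h]
  split_ifs
  · exact Nat.le_add_right _ _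
  · exact le_rfl

end basic

variable {V : Type}

/-- a move changes only these components -/
abbrev mv (σ : St V) (D H : Finset (V × V)) (acc : V → ℕ) (T B : Finset (ℕ × ℕ))
    (Un Cn : Finset ℕ) (dg : Option (V × V)) (Need : Finset ℕ) : St V :=
  { σ with D := D, H := H, acc := acc, T := T, B := B, Un := Un, Cn := Cn, dg := dg, Need := Need }

theorem sim_refl (m : ℕ) (σ : St V) : Sim m σ m σ := fun _ h => h

theorem sim_trans {m : ℕ} {σ σ' σ'' : St V} (h : Sim m σ m σ') (h' : Sim m σ' m σ'') :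
    Sim m σ m σ'' := fun E e => h' E (h E e)

theorem sim_rel {m : ℕ} {σ σ' : St V} (ρ : Ob V → Ob V) (h : ∀ o' x y, Req m σ' o' x y →
    Relation.ReflTransGen (fun a b => ∃ o, Req m σ o a b ∧ ρ o = o') x y) : Sim m σ m σ' := by
  rintro E ⟨own, ho⟩
  refine ⟨fun a b => ρ (own a b), fun o' x y hr => ?_⟩
  have h1 := h o' x y hr
  clear hr
  induction h1 with
  | refl => exact .refl
  | tail _ h2 ih =>
    obtain ⟨o, h3, h4⟩ := h2
    refine ih.trans (Relation.ReflTransGen.mono ?_ _ _ (ho o _ _ h3))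
    exact fun a b e => ⟨e.1, by rw [← h4, ← e.2]⟩

variable [DecidableEq V] {k m s : ℕ} {σ : St V} {D H : Finset (V × V)} {acc : V → ℕ}
  {T B : Finset (ℕ × ℕ)} {Un Cn Need : Finset ℕ} {dg : Option (V × V)}

theorem sim_mv (hU : D ∪ H = σ.D ∪ σ.H) (hP : Un ∪ Cn = σ.Un ∪ σ.Cn)
    (hd : ∀ x y, dg = some (x, y) → x = y ∨ σ.dg = some (x, y)) :
    Sim m σ m (mv σ D H acc σ.T B Un Cn dg σ.Need) := by
  rintro E ⟨own, ho⟩
  refine ⟨own, fun o x y hr => ?_⟩
  cases o with
  | arc a =>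
    have h : a ∈ σ.D ∪ σ.H := hU ▸ mem_union.2 hr.1
    exact ho _ _ _ ⟨mem_union.1 h, hr.2⟩
  | tok τ => exact ho _ _ _ hr
  | peb p =>
    refine ho _ _ _ ⟨?_, hr.2⟩
    have h : p ∈ Un ∪ Cn → p ∈ σ.Un ∨ p ∈ σ.Cn := fun h => mem_union.1 (hP ▸ h)
    rcases hr.1 with h1 | h1 | h1
    · exact (h (mem_union_left _ h1)).imp_right Or.inl
    · exact (h (mem_union_right _ h1)).imp_right Or.inl
    · exact Or.inr (Or.inr h1)
  | dang =>
    rcases hd x y hr with rfl | h
    · exact .refl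
    · exact ho _ _ _ h
  | done j i => exact ho _ _ _ hr

theorem good_mv (h : Good k m s σ) (hU : D ∪ H = σ.D ∪ σ.H) (hT : T ⊆ σ.T) (hN : Need ⊆ σ.Need)
    (hUn : Un ⊆ σ.Un) (hCn : Cn ⊆ σ.Un ∪ σ.Cn) (fl : Fl (mv σ D H acc T B Un Cn dg Need))
    (hd : ∀ x y, dg = some (x, y) → x ∈ σ.S ∧ y ∈ σ.S) (a1 : ∀ v, acc v ≤ 100)
    (a2 : ∀ v, acc v ≤ σ.c v)
    (tok : ∀ i < m, 100 * k + (if i ∈ Need then 1 else 0) ≤ cnt T Prod.fst i + m)
    (adm : Adm σ.S (2 * k + 1) (dem (mv σ D H acc T B Un Cn dg Need))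
      (cap (mv σ D H acc T B Un Cn dg Need)) Prod.fst σ.hd D) :
    Good k m s (mv σ D H acc T B Un Cn dg Need) := by
  have arc : ∀ a ∈ D ∪ H, a.1 ∈ σ.S ∧ σ.hd a ∈ σ.S := fun a ha =>
    (mem_union.1 (hU ▸ ha)).elim (h.arcD a) (h.arcH a)
  have c1 := card_le_card hN
  have c2 := card_le_card hUn
  exact
    { h with
      fl := fl
      arcD := fun a ha => arc a (mem_union_left _ ha)
      arcH := fun a ha => arc a (mem_union_right _ ha)
      bsS := fun τ hτ => h.bsS τ (hT hτ)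
      ogU := fun p hp => h.ogU p (hUn hp)
      ogC := fun p hp => (mem_union.1 (hCn hp)).elim (h.ogU p) (h.ogC p)
      dgS := hd
      acc1 := a1
      acc2 := a2
      i1 := fun v hv hc => by
        have h1 := h.i1 v hv hc
        rw [← cnt_union h.fl.dj, ← hU, cnt_union fl.dj] at h1
        exact h1
      tmu := fun v hv => (cnt_mono hT _ v).trans (h.tmu v hv)
      und := fun v hv hc => (Nat.add_le_add_left c1 _).trans (h.und v hv hc)
      smu := (Nat.add_le_add (Nat.add_le_add_left c2 _) c1).trans h.smu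
      mult := fun x y => by
        have h1 := h.mult x y
        rw [← hU] at h1
        exact h1
      tok := tok
      tlab := fun τ hτ => h.tlab τ (hT hτ)
      ndr := fun i hi => h.ndr i (hN hi)
      adm := adm }

theorem tg_mv {G : Finset (V × V)} {Bs : Finset (ℕ × ℕ)} {ac pi po : V → ℕ} {pl : ℕ → ℕ}
    (h : Tg σ G Bs ac pi po pl) (hU : D ∪ H = σ.D ∪ σ.H) :
    Tg (mv σ D H acc σ.T B σ.Un σ.Cn dg σ.Need) G Bs ac pi po pl :=
  { h with
    Gs := hU ▸ h.Gs
    p2 := fun a ha => h.p2 a (hU ▸ ha) }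

/-- the conclusion of the row -/
def Out (k m s : ℕ) (σ : St V) : Prop :=
  ∃ σ' : St V, Good k m s σ' ∧ Sim m σ m σ' ∧ σ'.S = σ.S ∧
    (meas σ' < meas σ ∨ (meas σ' ≤ meas σ ∧ ¬ Sc σ' ∧ ∃ Z, Blk k σ' Z))

theorem attempt (h : Good k m s σ) (hsc : ¬ Sc σ) {a b : V} (hdg : σ.dg = some (a, b))
    {dm c' : V → ℕ} (w : V) (h1 : ∀ v, dm v ≤ cnt (σ.T \ σ.B) σ.bs v + ind w v)
    (h2 : ∀ X, mval (cap σ) Prod.fst σ.hd σ.D X ≤
      mval c' Prod.fst σ.hd D X + if w ∈ X then 1 else 0) :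
    Out k m s σ ∨ Adm σ.S (2 * k + 1) dm c' Prod.fst σ.hd D := by
  by_cases hA : Adm σ.S (2 * k + 1) dm c' Prod.fst σ.hd D
  · exact Or.inr hA
  left
  unfold Adm at hA
  push Not at hA
  obtain ⟨X, hX, hc, hlt⟩ := hA
  have h3 := h.adm X hX hc
  have h4 : ∑ v ∈ σ.S \ X, dm v ≤
      ∑ v ∈ σ.S \ X, cnt (σ.T \ σ.B) σ.bs v + if w ∈ σ.S \ X then 1 else 0 := by
    rw [← sum_ind, ← sum_add_distrib]
    exact sum_le_sum fun v _ => h1 v
  have h5 : ∑ v ∈ σ.S \ X, dem σ v =
      ∑ v ∈ σ.S \ X, cnt (σ.T \ σ.B) σ.bs v + if a ∈ σ.S \ X then 1 else 0 := by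
    rw [← sum_ind, ← sum_add_distrib]
    refine sum_congr rfl fun v _ => ?_
    rw [dem, hdg]
    rfl
  have h6 := h2 X
  have h7 : (if w ∈ σ.S \ X then 1 else 0) + (if w ∈ X then 1 else 0) ≤ 1 := by
    by_cases e : w ∈ X <;> simp [e]
    split_ifs <;> omega
  have ha := (h.dgS a b hdg).1
  have haX : a ∈ X := by
    by_contra e
    rw [if_pos (mem_sdiff.2 ⟨ha, e⟩)] at h5
    omega
  refine ⟨σ, h, sim_refl m σ, rfl, Or.inr ⟨le_rfl, hsc, X, hX, ?_, hc, by omega, ?_⟩⟩
  · rintro rfl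
    rw [sdiff_self, bot_eq_empty, sum_empty] at hlt
    omega
  · intro x y e
    rw [hdg] at e
    cases e
    exact haX

end Pool.Agent.MP_b9875a_co.H99.LN.EP
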